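import Mathlib

set_option autoImplicit false

namespace Pool.Agent.Results.MP_f351c6_gt.NoParacompactOrbit

universe u v

open Topology Set

/-- The orbit `G_f` of a map `f : G → X`: the set of all maps `gf : x ↦ f (x g)`, `g ∈ G`. -/
def orbit {X : Type u} {G : Type v} [CommGroup G] (f : G → X) : Set (G → X) :=
  Set.range fun g : G => fun x : G => f (x * g)

/-- `f` is a Korovin mapping: `π_M (G_f) = X^M` for every countable `M ⊆ G`, where
`π_M : X^G → X^M` is the projection. -/
def IsKorovin {X : Type u} {G : Type v} [CommGroup G] (f : G → X) : Prop :=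
  ∀ M : Set G, M.Countable → (fun (p : G → X) (x : M) => p x) '' (orbit f) = Set.univ

/-- A countable set closed under a countable-valued operation on finite sets. -/
lemma exists_closed {G : Type v} (c : Finset G → Set G) (hc : ∀ F, (c F).Countable) :
    ∃ M : Set G, M.Countable ∧ ∀ F : Finset G, (F : Set G) ⊆ M → c F ⊆ M := by
  let step : Set G → Set G := fun A => A ∪ ⋃ F ∈ {F : Finset G | (F : Set G) ⊆ A}, c F
  let A : ℕ → Set G := fun n => step^[n] ∅
  have hA : ∀ n, A (n + 1) = step (A n) := fun n => Function.iterate_succ_apply' _ _ _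
  have hcount : ∀ n, (A n).Countable := by
    intro n
    induction n with
    | zero => exact Set.countable_empty
    | succ n ih =>
      rw [hA n]
      apply ih.union
      apply Set.Countable.biUnion
      · have h1 := Set.countable_ofPred_finite_subset ih
        have h2 : Set.MapsTo (fun F : Finset G => (F : Set G)) {F : Finset G | (F : Set G) ⊆ A n}
            {t : Set G | t.Finite ∧ t ⊆ A n} := fun F hF => ⟨F.finite_toSet, hF⟩
        exact Set.MapsTo.countable_of_injOn h2 Finset.coe_injective.injOn h1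
      · intro F _
        exact hc F
  have hmono : Monotone A := by
    apply monotone_nat_of_le_succ
    intro n
    rw [hA n]
    exact Set.subset_union_left
  refine ⟨⋃ n, A n, Set.countable_iUnion hcount, ?_⟩
  intro F hF
  obtain ⟨n, hn⟩ := Directed.exists_mem_subset_of_finset_subset_biUnion hmono.directed_le hF
  intro x hx
  refine Set.mem_iUnion.2 ⟨n + 1, ?_⟩
  rw [hA n]
  right
  exact Set.mem_biUnion (show F ∈ {F : Finset G | (F : Set G) ⊆ A n} from hn) hx

/-- The pressing-down step: there is a finite set `F` such that for every countable `M ⊇ F` some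
point `p` of `D` agrees with `q` on `M` while its finite support `E p` meets `M` exactly in `F`. -/
lemma exists_root {X : Type u} {G : Type v} (D : Set (G → X)) (q : G → X)
    (hD : ∀ M : Set G, M.Countable → ∃ p ∈ D, ∀ x ∈ M, p x = q x) (E : (G → X) → Finset G) :
    ∃ F : Finset G, ∀ M : Set G, M.Countable → (F : Set G) ⊆ M →
      ∃ p ∈ D, (∀ x ∈ M, p x = q x) ∧ ∀ x ∈ E p, x ∈ M → x ∈ F := by
  classical
  by_contra hcon
  push Not at hcon
  choose c hc1 hc2 hc3 using hcon
  obtain ⟨M, hM, hM2⟩ := exists_closed c hc1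
  obtain ⟨p, hpD, hp⟩ := hD M hM
  let F : Finset G := (E p).filter (fun x => x ∈ M)
  have hFM : (F : Set G) ⊆ M := by
    intro x hx
    have : x ∈ F := hx
    exact (Finset.mem_filter.1 this).2
  obtain ⟨x, hx1, hx2, hx3⟩ := hc3 F p hpD (fun x hx => hp x (hM2 F hFM hx))
  exact hx3 (Finset.mem_filter.2 ⟨hx1, hM2 F hFM hx2⟩)

/-- If the orbit is a regular space then any two topologically distinguishable points of `X` have
disjoint neighbourhoods. -/
lemma regular_of_orbit {X : Type u} [TopologicalSpace X] {G : Type v} [CommGroup G] (f : G → X)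
    (hK : ∀ M : Set G, M.Countable → ∀ v : G → X, ∃ p ∈ orbit f, ∀ x ∈ M, p x = v x)
    [RegularSpace (orbit f)] : RegularSpace X := by
  classical
  apply RegularSpace.of_exists_mem_nhds_isClosed_subset
  intro a s hs
  obtain ⟨p, hpD, hp⟩ := hK {1} (Set.countable_singleton _) (fun _ => a)
  have hp1 : p 1 = a := hp 1 rfl
  -- the neighbourhood in the orbit
  have h1 : {h : orbit f | h.1 1 ∈ s} ∈ 𝓝 (⟨p, hpD⟩ : orbit f) := by
    have hc : Continuous (fun h : orbit f => h.1 1) :=
      (continuous_apply 1).comp continuous_subtype_val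
    apply hc.continuousAt
    show s ∈ 𝓝 (p 1)
    rw [hp1]
    exact hs
  obtain ⟨T, hT1, hT2, hT3⟩ := exists_mem_nhds_isClosed_subset h1
  -- a basic neighbourhood inside T
  rw [mem_nhds_subtype] at hT1
  obtain ⟨T', hT', hT'2⟩ := hT1
  rw [nhds_pi, Filter.mem_pi] at hT'
  obtain ⟨I, hI, W, hW, hWT⟩ := hT'
  -- the closed neighbourhood in X
  refine ⟨closure (interior (W 1)), ?_, isClosed_closure, ?_⟩
  · have h2 : interior (W 1) ∈ 𝓝 a := by
      have : W 1 ∈ 𝓝 (p 1) := hW 1
      rw [hp1] at this
      exact interior_mem_nhds.2 this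
    exact Filter.mem_of_superset h2 subset_closure
  · intro b hb
    obtain ⟨h, hhD, hh⟩ := hK (I ∪ {1}) (hI.countable.union (Set.countable_singleton _))
      (fun x => if x = 1 then b else p x)
    have hh1 : h 1 = b := by
      have := hh 1 (Or.inr rfl)
      simpa using this
    have hmem : (⟨h, hhD⟩ : orbit f) ∈ T := by
      rw [← hT2.closure_eq, mem_closure_iff_nhds]
      intro N hN
      rw [mem_nhds_subtype] at hN
      obtain ⟨N', hN', hN'2⟩ := hN
      rw [nhds_pi, Filter.mem_pi] at hN'
      obtain ⟨J, hJ, V, hV, hVN⟩ := hN'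
      -- a point of X in the intersection at the coordinate 1
      have hV1 : V 1 ∈ 𝓝 b := by
        have : V 1 ∈ 𝓝 (h 1) := hV 1
        rwa [hh1] at this
      obtain ⟨y, hyV, hyW⟩ := mem_closure_iff_nhds.1 hb (V 1) hV1
      obtain ⟨r, hrD, hr⟩ := hK (I ∪ J ∪ {1})
        ((hI.countable.union hJ.countable).union (Set.countable_singleton _))
        (fun x => if x = 1 then y else if x ∈ I then p x else h x)
      have hr1 : r 1 = y := by
        have := hr 1 (Or.inr rfl)
        simpa using this
      refine ⟨⟨r, hrD⟩, ?_, ?_⟩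
      · apply hN'2
        apply hVN
        intro x hx
        by_cases hx1 : x = 1
        · subst hx1
          show r 1 ∈ V 1
          rw [hr1]; exact hyV
        · have h3 := hr x (Or.inl (Or.inr hx))
          rw [if_neg hx1] at h3
          by_cases hxI : x ∈ I
          · rw [if_pos hxI] at h3
            have h4 := hh x (Or.inl hxI)
            rw [if_neg hx1] at h4
            show r x ∈ V x
            rw [h3, ← h4]
            exact mem_of_mem_nhds (hV x)
          · rw [if_neg hxI] at h3
            show r x ∈ V x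
            rw [h3]
            exact mem_of_mem_nhds (hV x)
      · apply hT'2
        apply hWT
        intro x hx
        by_cases hx1 : x = 1
        · subst hx1
          show r 1 ∈ W 1
          rw [hr1]; exact interior_subset hyW
        · have h3 := hr x (Or.inl (Or.inl hx))
          rw [if_neg hx1, if_pos hx] at h3
          show r x ∈ W x
          rw [h3]
          exact mem_of_mem_nhds (hW x)
    have := hT3 hmem
    show b ∈ s
    rw [← hh1]
    exact this

/-- **No Korovin orbit over a space with at least two points is paracompact.** -/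
theorem result (X : Type u) [TopologicalSpace X] [Nontrivial X] (G : Type v) [CommGroup G]
    [Infinite G] (f : G → X) (hf : IsKorovin f) :
    ¬ (T2Space (orbit f) ∧ ParacompactSpace (orbit f)) := by
  classical
  rintro ⟨hT2, hpc⟩
  have hK : ∀ M : Set G, M.Countable → ∀ v : G → X, ∃ p ∈ orbit f, ∀ x ∈ M, p x = v x := by
    intro M hM v
    have h1 : (fun x : M => v x) ∈ (fun (p : G → X) (x : M) => p x) '' (orbit f) := by
      rw [hf M hM]; exact Set.mem_univ _
    obtain ⟨p, hpD, hp⟩ := h1
    exact ⟨p, hpD, fun x hx => congrFun hp ⟨x, hx⟩⟩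
  have hreg : RegularSpace X := regular_of_orbit f hK
  -- two topologically distinguishable points of X
  obtain ⟨a, b, hab⟩ : ∃ a b : X, ¬ Inseparable a b := by
    by_contra hcon
    push Not at hcon
    obtain ⟨a, b, hab⟩ := exists_pair_ne X
    obtain ⟨p, hpD, hp⟩ := hK {1} (Set.countable_singleton _) (fun _ => a)
    obtain ⟨r, hrD, hr⟩ := hK {1} (Set.countable_singleton _) (fun _ => b)
    have h1 : Inseparable (⟨p, hpD⟩ : orbit f) ⟨r, hrD⟩ := by
      rw [Topology.IsInducing.subtypeVal.inseparable_iff.symm]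
      exact inseparable_pi.2 (fun x => hcon _ _)
    have h2 := h1.eq
    have h3 : p 1 = r 1 := by
      have := congrArg Subtype.val h2
      exact congrFun this 1
    rw [hp 1 rfl, hr 1 rfl] at h3
    exact hab h3
  -- the diagonal point
  let q : G → X := fun g => if Inseparable (f (g * g)) a then b else a
  have hq : ∀ g, ¬ Inseparable (f (g * g)) (q g) := by
    intro g
    by_cases h : Inseparable (f (g * g)) a
    · have : q g = b := if_pos h
      rw [this]
      intro h2
      exact hab (h.symm.trans h2)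
    · have : q g = a := if_neg h
      rw [this]
      exact h
  -- disjoint neighbourhoods
  have hdis : ∀ g, ∃ O O' : Set X, IsOpen O ∧ IsOpen O' ∧ f (g * g) ∈ O ∧ q g ∈ O' ∧
      Disjoint O O' := by
    intro g
    have h1 : Disjoint (𝓝 (f (g * g))) (𝓝 (q g)) := by
      rw [disjoint_nhds_nhds_iff_not_specializes]
      intro h
      exact hq g h.inseparable
    rw [(nhds_basis_opens _).disjoint_iff (nhds_basis_opens _)] at h1
    obtain ⟨O, ⟨hO1, hO2⟩, O', ⟨hO'1, hO'2⟩, hOO'⟩ := h1
    exact ⟨O, O', hO2, hO'2, hO1, hO'1, hOO'⟩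
  choose O O' hO hO' hfO hqO' hOO' using hdis
  -- a bump covering subordinate to the cover
  let V : G → Set (orbit f) := fun g => {p | p.1 g ∈ O g}
  have hV : ∀ g, IsOpen (V g) := by
    intro g
    exact (hO g).preimage ((continuous_apply g).comp continuous_subtype_val)
  have hVcov : (Set.univ : Set (orbit f)) ⊆ ⋃ g, V g := by
    rintro ⟨p, ⟨g, rfl⟩⟩ -
    exact Set.mem_iUnion.2 ⟨g, hfO g⟩
  obtain ⟨φ, hφ⟩ := BumpCovering.exists_isSubordinate isClosed_univ V hV hVcov
  -- finite supports
  have hE : ∀ p : G → X, ∃ E : Finset G, ∀ hp : p ∈ orbit f, ∀ h : G → X, ∀ hh : h ∈ orbit f,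
      (∀ x ∈ E, h x = p x) → ∀ g, |φ g ⟨h, hh⟩ - φ g ⟨p, hp⟩| < 1 / 2 := by
    intro p
    by_cases hp : p ∈ orbit f
    · have h1 : ∀ᶠ h : orbit f in 𝓝 ⟨p, hp⟩, ∀ g, |φ g h - φ g ⟨p, hp⟩| < 1 / 2 := by
        obtain ⟨t, ht, htf⟩ := φ.locallyFinite ⟨p, hp⟩
        have h2 : ∀ᶠ h : orbit f in 𝓝 ⟨p, hp⟩,
            ∀ g ∈ {g | (Function.support (φ g) ∩ t).Nonempty}, |φ g h - φ g ⟨p, hp⟩| < 1 / 2 := by
          rw [Filter.eventually_all_finite htf]
          intro g _
          have h3 : Filter.Tendsto (fun h : orbit f => |φ g h - φ g ⟨p, hp⟩|) (𝓝 ⟨p, hp⟩)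
              (𝓝 |φ g ⟨p, hp⟩ - φ g ⟨p, hp⟩|) := by
            apply Filter.Tendsto.abs
            exact ((φ g).continuous.tendsto _).sub tendsto_const_nhds
          rw [sub_self, abs_zero] at h3
          exact h3.eventually (gt_mem_nhds (by norm_num))
        filter_upwards [h2, ht] with h hh1 hh2 g
        by_cases hg : (Function.support (φ g) ∩ t).Nonempty
        · exact hh1 g hg
        · have e1 : φ g h = 0 := by
            by_contra hne
            exact hg ⟨h, hne, hh2⟩
          have e2 : φ g ⟨p, hp⟩ = 0 := by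
            by_contra hne
            exact hg ⟨_, hne, mem_of_mem_nhds ht⟩
          rw [e1, e2]
          norm_num
      rw [Filter.eventually_iff, mem_nhds_subtype] at h1
      obtain ⟨T, hT, hT2⟩ := h1
      rw [nhds_pi, Filter.mem_pi] at hT
      obtain ⟨I, hI, W, hW, hWT⟩ := hT
      refine ⟨hI.toFinset, fun _ h hh hE => ?_⟩
      have h4 : (⟨h, hh⟩ : orbit f) ∈ Subtype.val ⁻¹' T := by
        apply hWT
        intro x hx
        show h x ∈ W x
        rw [hE x (hI.mem_toFinset.2 hx)]
        exact mem_of_mem_nhds (hW x)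
      exact hT2 h4
    · exact ⟨∅, fun hp' => absurd hp' hp⟩
  choose E hE using hE
  -- the root
  obtain ⟨F, hF⟩ := exists_root (orbit f) q (fun M hM => hK M hM q) E
  obtain ⟨p₀, hp₀D, hp₀, hp₀E⟩ := hF F F.countable_toSet le_rfl
  -- a bump equal to one at p₀
  obtain ⟨g, hg⟩ : ∃ g, φ g ⟨p₀, hp₀D⟩ = 1 := by
    refine ⟨φ.ind ⟨p₀, hp₀D⟩ (Set.mem_univ _), ?_⟩
    exact φ.ind_apply _ _
  -- the second point
  obtain ⟨p₁, hp₁D, hp₁, hp₁E⟩ := hF (F ∪ {g} ∪ E p₀)
    ((F.countable_toSet.union (Set.countable_singleton _)).union (E p₀).countable_toSet)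
    (fun x hx => Or.inl (Or.inl hx))
  -- the interpolating point
  obtain ⟨h, hhD, hh⟩ := hK (E p₀ ∪ E p₁) ((E p₀).countable_toSet.union (E p₁).countable_toSet)
    (fun x => if x ∈ E p₀ then p₀ x else p₁ x)
  have hh0 : ∀ x ∈ E p₀, h x = p₀ x := by
    intro x hx
    rw [hh x (Or.inl hx), if_pos hx]
  have hh1 : ∀ x ∈ E p₁, h x = p₁ x := by
    intro x hx
    rw [hh x (Or.inr hx)]
    by_cases hx0 : x ∈ E p₀
    · rw [if_pos hx0]
      have hxF : x ∈ F := hp₁E x hx (Or.inr hx0)
      rw [hp₀ x hxF, hp₁ x (Or.inl (Or.inl hxF))]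
    · rw [if_neg hx0]
  have e0 := hE p₀ hp₀D h hhD hh0 g
  have e1 := hE p₁ hp₁D h hhD hh1 g
  rw [hg] at e0
  rw [abs_lt] at e0 e1
  have e2 : 0 < φ g ⟨p₁, hp₁D⟩ := by linarith
  -- hence p₁ lies in V g, but it agrees with q at g
  have e3 : (⟨p₁, hp₁D⟩ : orbit f) ∈ V g := by
    apply hφ g
    apply subset_tsupport
    exact e2.ne'
  have e4 : p₁ g = q g := hp₁ g (Or.inl (Or.inr rfl))
  have e5 : p₁ g ∈ O g := e3
  rw [e4] at e5
  exact Set.disjoint_left.1 (hOO' g) e5 (hqO' g)

end Pool.Agent.Results.MP_f351c6_gt.NoParacompactOrbit
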